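import Pool.Agent.BoltzM.Spec.Energy

/-!
The collision invariants in Schwartz space and the macroscopic projection.
-/

set_option autoImplicit false

open MeasureTheory SchwartzMap Pool.Agent.BoltzM.BoltzC

noncomputable section

namespace Pool.Agent.BoltzM

variable [Dim]

/-- Total mass of the Maxwellian. -/
def ZM : ℝ := ip sqMS sqMS

lemma ZM_eq : ZM = ∫ v, sqM v ^ 2 := by simp [ZM, ip_self_eq]

lemma sqMS_ne_zero : sqMS ≠ 0 := fun h => by
  have := congrArg (fun f : SV => f 0) h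
  simp [(sqM_pos 0).ne'] at this

lemma ZM_pos : 0 < ZM :=
  lt_of_le_of_ne (ip_self_nonneg _) fun h => sqMS_ne_zero (ip_self_eq_zero h.symm)

/-- The energy mode `(|V|² - d) sqM`. -/
def e4 : SV := ∑ j, ap j (ap j sqMS)

lemma ap_ap_sqMS (i j : Ix) :
    ap i (ap j sqMS) = mulV i (mulV j sqMS) - (if i = j then (1 : ℝ) else 0) • sqMS := by
  rw [ap_sqMS, ap_mulV, ap_sqMS, mulV_comm]

lemma e4_eq : e4 = ∑ j, mulV j (mulV j sqMS) - (dd : ℝ) • sqMS := by
  simp [e4, ap_ap_sqMS, Nat.cast_smul_eq_nsmul]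

lemma e4_apply (v : E) : e4 v = (‖v‖ ^ 2 - dd) * sqM v := by
  rw [e4_eq, EuclideanSpace.real_norm_sq_eq, sub_mul, Finset.sum_mul, SchwartzMap.sub_apply,
    _root_.sum_apply]
  congr 1
  · exact Finset.sum_congr rfl fun i _ => by simp [sq, mul_assoc]
  · simp

lemma am_ap_sqMS (i j : Ix) : am i (ap j sqMS) = (if i = j then (1 : ℝ) else 0) • sqMS := by
  rw [am_ap, am_sqMS, map_zero, zero_add]

lemma am_e4 (i : Ix) : am i e4 = (2 : ℝ) • ap i sqMS := by
  have : ∀ j, am i (ap j (ap j sqMS)) = (if i = j then (2 : ℝ) else 0) • ap j sqMS := by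
    intro j
    rw [am_ap, am_ap_sqMS, map_smul, ← add_smul]
    congr 1
    split_ifs <;> norm_num
  simp [e4, this]

lemma ip_sqMS_ap (j : Ix) (f : SV) : ip sqMS (ap j f) = 0 := by
  rw [← ip_am, am_sqMS, map_zero, LinearMap.zero_apply]

lemma ip_ap_ap_sqMS (i j : Ix) :
    ip (ap i sqMS) (ap j sqMS) = if i = j then ZM else 0 := by
  rw [ip_ap, am_ap_sqMS, map_smul]
  split_ifs <;> simp [ZM]

lemma ip_sqMS_e4 : ip sqMS e4 = 0 := by simp [e4, ip_sqMS_ap]

lemma ip_ap_e4 (i : Ix) : ip (ap i sqMS) e4 = 0 := by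
  rw [ip_ap, am_e4, map_smul, ip_sqMS_ap, smul_zero]

lemma ip_e4_e4 : ip e4 e4 = 2 * dd * ZM := by
  have : ∀ j, ip (ap j (ap j sqMS)) e4 = 2 * ZM := by
    intro j
    rw [ip_ap, am_e4, map_smul, ip_ap_ap_sqMS]
    simp
  conv_lhs => rw [show ip e4 = ip (∑ j, ap j (ap j sqMS)) from rfl]
  rw [map_sum, LinearMap.sum_apply]
  simp [this]
  ring

lemma hb_zero : hb none = sqMS := rfl

lemma hb_four : hb (some none) = e4 := rfl

lemma hb_succ (j : Ix) : hb (some (some j)) = ap j sqMS := rfl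

/-- Squared norms of the basis, in units of `ZM`. -/
def ew : Hx → ℝ
  | none => 1
  | some none => 2 * dd
  | some (some _) => 1

lemma ew_pos (i : Hx) : 0 < ew i := by
  rcases i with _ | _ | i <;> simp [ew, NeZero.pos dd]

lemma ip_ap_sqMS (j : Ix) (f : SV) : ip (ap j f) sqMS = 0 := by rw [ip_comm, ip_sqMS_ap]

lemma ip_e4_sqMS : ip e4 sqMS = 0 := by rw [ip_comm, ip_sqMS_e4]

lemma ip_e4_ap (k : Ix) : ip e4 (ap k sqMS) = 0 := by rw [ip_comm, ip_ap_e4]

lemma ip_sqMS_sqMS : ip sqMS sqMS = ZM := rfl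

lemma ip_hb (i j : Hx) : ip (hb i) (hb j) = if i = j then ew i * ZM else 0 := by
  rcases i with _ | _ | i <;> rcases j with _ | _ | j <;>
    simp [hb_zero, hb_four, hb_succ, ew, ip_ap_sqMS, ip_e4_sqMS, ip_e4_ap, ip_sqMS_sqMS, ip_sqMS_ap, ip_ap_ap_sqMS,
      ip_sqMS_e4, ip_ap_e4, ip_e4_e4]

lemma eH_eq (i : Hx) : eH i = (√(ew i * ZM))⁻¹ • hb i := by rw [eH, ip_hb, if_pos rfl]

lemma ip_eH (i j : Hx) : ip (eH i) (eH j) = if i = j then 1 else 0 := by
  simp only [eH_eq, map_smul, LinearMap.smul_apply, smul_eq_mul, ip_hb]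
  split_ifs with h
  · subst h
    have h0 : 0 < ew i * ZM := mul_pos (ew_pos i) ZM_pos
    have h1 := Real.mul_self_sqrt h0.le
    have h2 : √(ew i * ZM) ≠ 0 := (Real.sqrt_pos.2 h0).ne'
    field_simp
    nlinarith
  · simp

lemma hb_eq_smul (i : Hx) : hb i = √(ew i * ZM) • eH i := by
  have h2 : √(ew i * ZM) ≠ 0 := (Real.sqrt_pos.2 (mul_pos (ew_pos i) ZM_pos)).ne'
  rw [eH_eq, smul_smul, mul_inv_cancel₀ h2, one_smul]

lemma e4_mem : e4 ∈ HP 2 := by
  rw [e4]
  exact Submodule.sum_mem _ fun j _ => ap_mem j (ap_mem j (sqMS_mem 0))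

lemma hb_mem (i : Hx) : hb i ∈ HP 2 := by
  have h1 : ∀ j, ap j sqMS ∈ HP 2 := fun j => ap_mem j (sqMS_mem 1)
  rcases i with _ | _ | i
  exacts [sqMS_mem 2, e4_mem, h1 i]

lemma eH_mem (i : Hx) : eH i ∈ HP 2 := Submodule.smul_mem _ _ (hb_mem i)

lemma PP_apply' (f : SV) : PP f = ∑ i, (ip (hb i) f / (ew i * ZM)) • hb i := by
  rw [PP_apply]
  refine Finset.sum_congr rfl fun i _ => ?_
  have h0 : 0 < ew i * ZM := mul_pos (ew_pos i) ZM_pos
  have h2 : √(ew i * ZM) ≠ 0 := (Real.sqrt_pos.2 h0).ne'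
  rw [eH_eq, map_smul, LinearMap.smul_apply, smul_smul, smul_eq_mul]
  congr 1
  conv_rhs => rw [← Real.mul_self_sqrt h0.le]
  field_simp

lemma ip_eH_PP (j : Hx) (f : SV) : ip (eH j) (PP f) = ip (eH j) f := by
  simp [PP_apply, ip_eH, -Fintype.sum_option]

lemma ip_hb_PP (j : Hx) (f : SV) : ip (hb j) (PP f) = ip (hb j) f := by
  rw [hb_eq_smul, map_smul, LinearMap.smul_apply, LinearMap.smul_apply, ip_eH_PP]

lemma PP_PP (f : SV) : PP (PP f) = PP f := by
  conv_lhs => rw [PP_apply]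
  simp only [ip_eH_PP]
  rw [← PP_apply]

lemma PP_eH (j : Hx) : PP (eH j) = eH j := by simp [PP_apply, ip_eH]

lemma PP_hb (j : Hx) : PP (hb j) = hb j := by rw [hb_eq_smul, map_smul, PP_eH]

lemma PP_sqMS : PP sqMS = sqMS := PP_hb none

lemma PP_e4 : PP e4 = e4 := PP_hb (some none)

lemma PP_ap_sqMS (j : Ix) : PP (ap j sqMS) = ap j sqMS := by rw [← hb_succ, PP_hb]

lemma ip_PP_left (f g : SV) : ip (PP f) g = ∑ i, ip (eH i) f * ip (eH i) g := by
  simp [PP_apply]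

lemma ip_PP (f g : SV) : ip (PP f) g = ip f (PP g) := by
  rw [ip_comm f, ip_PP_left, ip_PP_left]
  simp only [mul_comm]

lemma ip_PP_PP (f : SV) : ip (PP f) (PP f) = ∑ i, ip (eH i) f ^ 2 := by
  rw [ip_PP, PP_PP, ← ip_PP, ip_PP_left]
  simp only [sq]

lemma ip_PP_PP' (f : SV) : ip (PP f) (PP f) = ∑ i, ip (hb i) f ^ 2 / (ew i * ZM) := by
  rw [ip_PP_PP]
  refine Finset.sum_congr rfl fun i _ => ?_
  rw [eH_eq, map_smul, LinearMap.smul_apply, smul_eq_mul, mul_pow, inv_pow,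
    Real.sq_sqrt (mul_pos (ew_pos i) ZM_pos).le, div_eq_inv_mul]

lemma PP_sub_PP (f : SV) : PP (f - PP f) = 0 := by rw [map_sub, PP_PP, sub_self]

lemma ip_PP_sub_PP (f g : SV) : ip (PP f) (g - PP g) = 0 := by
  rw [ip_PP, PP_sub_PP, map_zero]

lemma ip_sub_PP_PP (f g : SV) : ip (f - PP f) (PP g) = 0 := by rw [ip_comm, ip_PP_sub_PP]

/-- Pythagoras, bilinear form. -/
lemma ip_split₂ (f g : SV) : ip f g = ip (PP f) (PP g) + ip (f - PP f) (g - PP g) := by
  have h := ip_PP_sub_PP f g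
  have h' := ip_sub_PP_PP f g
  conv_lhs => rw [show f = PP f + (f - PP f) by abel, show g = PP g + (g - PP g) by abel]
  simp only [map_add, LinearMap.add_apply, h, h']
  ring

/-- Pythagoras. -/
lemma ip_split (f : SV) : ip f f = ip (PP f) (PP f) + ip (f - PP f) (f - PP f) := ip_split₂ f f

lemma ip_PP_PP_le (f : SV) : ip (PP f) (PP f) ≤ ip f f := by
  linarith [ip_split f, ip_self_nonneg (f - PP f)]

lemma ip_sub_PP_le (f : SV) : ip (f - PP f) (f - PP f) ≤ ip f f := by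
  linarith [ip_split f, ip_self_nonneg (PP f)]

lemma PP_mem (f : SV) : PP f ∈ HP 2 := by
  rw [PP_apply]
  exact Submodule.sum_mem _ fun i _ => Submodule.smul_mem _ _ (eH_mem i)

lemma PP_eq_zero_iff {f : SV} : PP f = 0 ↔ ∀ i, ip (hb i) f = 0 := by
  constructor
  · intro h i
    rw [← ip_hb_PP, h, map_zero]
  · intro h
    simp [PP_apply', h]

lemma PP_eq_zero_iff_micro {f : SV} : PP f = 0 ↔ Coll.Micro f := by
  have h0 : ip sqMS f = ∫ v, f v * Coll.sM v := by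
    rw [ip_comm]
    simp only [ip_def, sqMS_apply]; rfl
  have h1 : ∀ j, ip (ap j sqMS) f = ∫ v, f v * (v j * Coll.sM v) := fun j => by
    rw [ip_comm, ap_sqMS]
    simp only [ip_def, mulV_apply, sqMS_apply]; rfl
  have h2 : ip f (e4 + (dd : ℝ) • sqMS) = ∫ v, f v * (‖v‖ ^ 2 * Coll.sM v) := by
    rw [ip_def]
    congr 1; funext v
    change f v * (e4 v + dd * sqMS v) = f v * (‖v‖ ^ 2 * sqM v)
    rw [e4_apply, sqMS_apply]; ring
  rw [map_add, map_smul, ip_comm f, ip_comm f] at h2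
  rw [PP_eq_zero_iff, Coll.Micro, ← h0, ← h2]
  simp only [← h1]
  constructor
  · intro h
    refine ⟨h none, fun j => ?_, ?_⟩
    · rw [← hb_succ]; exact h _
    · have a := h (some none)
      have b := h none
      rw [hb_four] at a
      rw [hb_zero] at b
      rw [a, b]; simp
  · rintro ⟨a, b, c⟩ i
    rcases i with _ | _ | i
    · exact a
    · rw [a] at c
      change ip e4 f = 0
      simpa using c
    · exact b i

/-- Eigenvectors of `R_1` are eigenvectors of every `R_m`. -/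
lemma RR_eigen (m : ℕ) : ∀ (c : ℝ) (f : SV), RR 1 f = c • f →
    RR m f = (∏ i ∈ Finset.range m, (c + i)) • f := by
  induction m with
  | zero => intro c f _; simp
  | succ m ih =>
    intro c f h
    have h1 : ∀ j, RR 1 (ap j f) = (c + 1) • ap j f := fun j => by
      rw [RR_one_ap, h, map_smul, add_smul, one_smul]
    rw [RR_succ]
    simp only [ih _ _ (h1 _), map_smul, ← Finset.smul_sum]
    rw [← RR_one, h, smul_smul, Finset.prod_range_succ']
    congr 2
    · refine Finset.prod_congr rfl fun i _ => ?_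
      push_cast; ring
    · simp

lemma RR_one_sqMS : RR 1 sqMS = (dd : ℝ) • sqMS := by
  simp [RR_one, am_ap_sqMS, Nat.cast_smul_eq_nsmul]

lemma RR_one_ap_sqMS (j : Ix) : RR 1 (ap j sqMS) = (dd + 1 : ℝ) • ap j sqMS := by
  rw [RR_one_ap, RR_one_sqMS, map_smul]; module

lemma RR_one_e4 : RR 1 e4 = (dd + 2 : ℝ) • e4 := by
  rw [e4, map_sum, Finset.smul_sum]
  refine Finset.sum_congr rfl fun j _ => ?_
  rw [RR_one_ap, RR_one_ap_sqMS, map_smul]; module

/-- Eigenvalues of `R_1` on the invariants. -/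
def ed : Hx → ℝ
  | none => dd
  | some none => dd + 2
  | some (some _) => dd + 1

lemma RR_one_hb (i : Hx) : RR 1 (hb i) = ed i • hb i := by
  rcases i with _ | _ | i
  exacts [RR_one_sqMS, RR_one_e4, RR_one_ap_sqMS i]

lemma RR_eH (m : ℕ) (i : Hx) : RR m (eH i) = (∏ k ∈ Finset.range m, (ed i + k)) • eH i :=
  RR_eigen m _ _ (by rw [eH, map_smul, RR_one_hb, smul_comm])

lemma PP_RR (m : ℕ) (f : SV) : PP (RR m f) = RR m (PP f) := by
  rw [PP_apply, PP_apply, map_sum]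
  refine Finset.sum_congr rfl fun i _ => ?_
  rw [← ip_RR_symm, map_smul, RR_eH, map_smul, smul_smul, LinearMap.smul_apply, smul_eq_mul,
    mul_comm]

lemma ip_PP_RR_sub (m : ℕ) (f g : SV) : ip (PP f) (RR m (g - PP g)) = 0 := by
  rw [ip_PP, PP_RR, PP_sub_PP, map_zero, map_zero]

lemma ip_sub_RR_PP (m : ℕ) (f g : SV) : ip (f - PP f) (RR m (PP g)) = 0 := by
  rw [← ip_RR_symm, ip_comm, ip_PP_RR_sub]

/-- Macroscopic and microscopic parts are orthogonal at every level. -/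
lemma sum_ip_apW_PP (m : ℕ) (f g : SV) :
    ∑ w ∈ words m, ip (apW w (PP f)) (apW w (g - PP g)) = 0 := by
  rw [← ip_RR, ip_PP_RR_sub]

lemma ip_RR_split (m : ℕ) (f g : SV) :
    ip f (RR m g) = ip (PP f) (RR m (PP g)) + ip (f - PP f) (RR m (g - PP g)) := by
  have h := ip_PP_RR_sub m f g
  have h' := ip_sub_RR_PP m f g
  conv_lhs => rw [show f = PP f + (f - PP f) by abel, show g = PP g + (g - PP g) by abel]
  simp only [map_add, LinearMap.add_apply, h, h']
  ring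

lemma nA_split (m : ℕ) (f : SV) : nA m f = nA m (PP f) + nA m (f - PP f) := by
  simp only [nA_eq_ip_RR]
  exact ip_RR_split m f f

lemma nA_sub_PP_le (m : ℕ) (f : SV) : nA m (f - PP f) ≤ nA m f := by
  linarith [nA_split m f, nA_nonneg m (PP f)]

lemma nA_PP_le_nA (m : ℕ) (f : SV) : nA m (PP f) ≤ nA m f := by
  linarith [nA_split m f, nA_nonneg m (f - PP f)]

lemma nA_PP_le (m : ℕ) (f : SV) :
    nA m (PP f) ≤ (∏ k ∈ Finset.range m, (dd + 2 + k : ℝ)) * ip (PP f) (PP f) := by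
  rw [nA_eq_ip_RR, ip_PP_PP, ip_PP_left, Finset.mul_sum]
  refine Finset.sum_le_sum fun i _ => ?_
  rw [← ip_RR_symm, RR_eH, map_smul, LinearMap.smul_apply, ip_eH_PP, smul_eq_mul, mul_left_comm,
    ← sq]
  have h1 : 0 ≤ ed i := by rcases i with _ | _ | i <;> simp only [ed] <;> positivity
  have h2 : ed i ≤ dd + 2 := by rcases i with _ | _ | i <;> simp only [ed] <;> linarith
  gcongr

lemma exists_adj_apW (w : List Ix) : ∀ e : SV, ∃ h : SV, ∀ f, ip e (apW w f) = ip h f := by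
  induction w with
  | nil => exact fun e => ⟨e, fun f => rfl⟩
  | cons j w ih =>
    intro e
    obtain ⟨h, hh⟩ := ih (am j e)
    exact ⟨h, fun f => by rw [apW_cons, ← ip_am, hh]⟩

lemma ip_sq_le (f g : SV) : ip f g ^ 2 ≤ ip f f * ip g g := by
  have h := pow_le_pow_left₀ (abs_nonneg _) (abs_ip_le f g) 2
  rwa [sq_abs, mul_pow, Real.sq_sqrt (ip_self_nonneg _), Real.sq_sqrt (ip_self_nonneg _)] at h

lemma PP_apW_le (w : List Ix) :
    ∃ C : ℝ, 0 ≤ C ∧ ∀ f, ip (PP (apW w f)) (PP (apW w f)) ≤ C * ip f f := by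
  choose h hh using fun i => exists_adj_apW w (eH i)
  refine ⟨∑ i, ip (h i) (h i), Finset.sum_nonneg fun i _ => ip_self_nonneg _, fun f => ?_⟩
  rw [ip_PP_PP, Finset.sum_mul]
  refine Finset.sum_le_sum fun i _ => ?_
  rw [hh]
  exact ip_sq_le _ _

/-- Cauchy-Schwarz for a finite linear combination. -/
lemma ip_sum_smul_le {ι : Type} (s : Finset ι) (c : ι → ℝ) (e : ι → SV) :
    ip (∑ i ∈ s, c i • e i) (∑ i ∈ s, c i • e i) ≤
      (∑ i ∈ s, c i ^ 2) * ∑ i ∈ s, ip (e i) (e i) := by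
  have h1 : ip (∑ i ∈ s, c i • e i) (∑ i ∈ s, c i • e i) ≤
      (∑ i ∈ s, |c i| * √(ip (e i) (e i))) ^ 2 := by
    rw [sq, Finset.sum_mul_sum]
    simp only [map_sum, map_smul, LinearMap.sum_apply, LinearMap.smul_apply, smul_eq_mul,
      Finset.mul_sum]
    refine Finset.sum_le_sum fun i _ => Finset.sum_le_sum fun j _ => ?_
    refine (le_abs_self _).trans ?_
    rw [abs_mul, abs_mul]
    calc |c i| * (|c j| * |ip (e j) (e i)|)
        ≤ |c i| * (|c j| * (√(ip (e j) (e j)) * √(ip (e i) (e i)))) := by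
          gcongr; exact abs_ip_le _ _
      _ = _ := by ring
  refine h1.trans ((Finset.sum_mul_sq_le_sq_mul_sq _ _ _).trans (le_of_eq ?_))
  simp only [sq_abs, Real.sq_sqrt (ip_self_nonneg _)]

/-- Every linear map is bounded on the hydrodynamic part. -/
lemma nA_lin_PP_le (A : SV →ₗ[ℝ] SV) (m : ℕ) :
    ∃ C : ℝ, 0 ≤ C ∧ ∀ f, nA m (A (PP f)) ≤ C * ip (PP f) (PP f) := by
  refine ⟨∑ a, nA m (A (eH a)), Finset.sum_nonneg fun _ _ => nA_nonneg _ _, fun f => ?_⟩
  rw [ip_PP_PP, PP_apply, nA]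
  simp only [nA]
  rw [Finset.sum_comm, Finset.sum_mul]
  refine Finset.sum_le_sum fun w _ => ?_
  simp only [map_sum (apW w), map_sum A, map_smul]
  rw [mul_comm]
  exact ip_sum_smul_le _ _ _

lemma nA_clm_PP_le (A : SV →L[ℝ] SV) (m : ℕ) :
    ∃ C : ℝ, 0 ≤ C ∧ ∀ f, nA m (A (PP f)) ≤ C * ip (PP f) (PP f) :=
  nA_lin_PP_le (A : SV →ₗ[ℝ] SV) m

lemma ip_hb_zero_mulV (i : Ix) (f : SV) :
    ip (hb none) (mulV i f) = ip (hb (some (some i))) f := by
  rw [← ip_mulV, hb_zero, hb_succ, ap_sqMS]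

lemma ip_hb_succ_mulV (i j : Ix) (f : SV) :
    ip (hb (some (some j))) (mulV i (PP f)) =
      if i = j then ip (hb none) f + ip (hb (some none)) f / dd else 0 := by
  have hZ := ZM_pos.ne'
  have hd := dr_ne
  have h1 : ∀ k, ip (ap i (ap j sqMS)) (ap k sqMS) = 0 := fun k => by
    rw [ip_ap, am_ap_sqMS, map_smul, ip_ap_sqMS, smul_zero]
  have h2 : ip (ap i (ap j sqMS)) e4 = if i = j then 2 * ZM else 0 := by
    rw [ip_ap, am_e4, map_smul, ip_ap_ap_sqMS]
    simp [eq_comm]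
  rw [← ip_mulV, hb_succ, ← ap_add_am, am_ap_sqMS, map_add, LinearMap.add_apply, map_smul,
    LinearMap.smul_apply, ← hb_zero, ip_hb_PP, PP_apply', sum_Hx]
  simp only [map_add, map_smul, map_sum, hb_zero, hb_four, hb_succ, ew, h1, h2, ip_ap_sqMS,
    smul_eq_mul]
  split_ifs
  · simp only [mul_zero, Finset.sum_const_zero]
    field_simp; ring
  · simp

lemma ip_hb_four_mulV (i : Ix) (f : SV) :
    ip (hb (some none)) (mulV i (PP f)) = 2 * ip (hb (some (some i))) f := by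
  have h1 : ∀ k, ip (ap i e4) (ap k sqMS) = 0 := fun k => by
    rw [ip_ap, am_ap_sqMS, map_smul, ip_e4_sqMS, smul_zero]
  have h2 : ip (ap i e4) e4 = 0 := by
    rw [ip_ap, am_e4, map_smul, ip_e4_ap, smul_zero]
  have h3 : ip (ap i e4) (PP f) = 0 := by
    rw [PP_apply', sum_Hx]
    simp only [map_add, map_smul, map_sum, hb_zero, hb_four, hb_succ, h1, h2, ip_ap_sqMS,
      smul_eq_mul]
    simp
  rw [← ip_mulV, hb_four, ← ap_add_am, am_e4, map_add, LinearMap.add_apply, h3, map_smul,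
    LinearMap.smul_apply, ← hb_succ, ip_hb_PP, zero_add, smul_eq_mul]

/-- The hydrodynamic part of `V_i` times a hydrodynamic function. -/
lemma ip_PP_mulV_PP (i : Ix) (f : SV) :
    ip (PP (mulV i (PP f))) (PP (mulV i (PP f))) =
      ((dd + 2) / dd * ip (hb (some (some i))) f ^ 2
        + (ip (hb none) f + ip (hb (some none)) f / dd) ^ 2) / ZM := by
  have hZ := ZM_pos.ne'
  have hd := dr_ne
  have h0 := ip_hb_zero_mulV i (PP f)
  rw [ip_hb_PP] at h0
  rw [ip_PP_PP', sum_Hx, h0, ip_hb_four_mulV, Finset.sum_eq_single i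
    (fun j _ hj => by rw [ip_hb_succ_mulV, if_neg hj.symm]; simp) (by simp), ip_hb_succ_mulV,
    if_pos rfl]
  simp only [ew]
  field_simp
  ring

lemma ip_PP_mulV_le (i : Ix) {Y : SV} (hY : PP Y = Y) :
    ip (PP (mulV i Y)) (PP (mulV i Y)) ≤ (dd + 2) / dd * ip Y Y := by
  have hZ := ZM_pos
  have hd := dr_pos
  conv_lhs => rw [← hY, ip_PP_mulV_PP]
  conv_rhs => rw [← hY, ip_PP_PP', sum_Hx]
  simp only [ew, one_mul, ← Finset.sum_div]
  have h : ip (hb (some (some i))) Y ^ 2 ≤ ∑ j, ip (hb (some (some j))) Y ^ 2 :=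
    Finset.single_le_sum (f := fun j => ip (hb (some (some j))) Y ^ 2) (fun _ _ => sq_nonneg _)
      (Finset.mem_univ i)
  set S := ∑ j, ip (hb (some (some j))) Y ^ 2
  set a := ip (hb none) Y
  set b := ip (hb (some none)) Y
  set c := ip (hb (some (some i))) Y
  have e : ((dd : ℝ) + 2) / dd * (a ^ 2 / ZM + (b ^ 2 / (2 * dd * ZM) + S / ZM))
      - ((dd + 2) / dd * c ^ 2 + (a + b / dd) ^ 2) / ZM
      = ((dd + 2) * (S - c ^ 2) + (2 * a - b) ^ 2 / 2) / (dd * ZM) := by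
    field_simp
    ring
  have : 0 ≤ (((dd : ℝ) + 2) * (S - c ^ 2) + (2 * a - b) ^ 2 / 2) / (dd * ZM) := by
    have := sub_nonneg.2 h
    positivity
  linarith

lemma sum_ip_PP_mulV_le {Y : SV} (hY : PP Y = Y) :
    ∑ i, ip (PP (mulV i Y)) (PP (mulV i Y)) ≤ (dd + 2) * ip Y Y := by
  have hd := dr_ne
  refine (sum_le_Ix fun i => ip_PP_mulV_le i hY).trans (le_of_eq ?_)
  field_simp

end Pool.Agent.BoltzM
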